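import Pool.Agent.Q116.Inv.PathG

set_option autoImplicit false

namespace Q116.Inv

open Finset SimpleGraph

variable {V : Type} [Fintype V] [DecidableEq V]

/-- The graph joining every `u ∈ M` to the vertices of `N u` outside `M`. -/
def bg (M : Finset V) (N : V → Finset V) : SimpleGraph V where
  Adj a b := (a ∈ M ∧ b ∉ M ∧ b ∈ N a) ∨ (b ∈ M ∧ a ∉ M ∧ a ∈ N b)
  symm := ⟨fun a b h => h.symm⟩
  loopless := ⟨fun a h => by
    rcases h with h | h
    · exact h.2.1 h.1
    · exact h.2.1 h.1⟩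

instance (M : Finset V) (N : V → Finset V) : DecidableRel (bg M N).Adj := fun a b =>
  inferInstanceAs (Decidable ((a ∈ M ∧ b ∉ M ∧ b ∈ N a) ∨ (b ∈ M ∧ a ∉ M ∧ a ∈ N b)))

theorem bg_card (M : Finset V) (N : V → Finset V) (h : ∀ u ∈ M, ∀ x ∈ N u, x ∉ M) :
    (bg M N).edgeSet.ncard = ∑ u ∈ M, (N u).card := by
  classical
  have hb : (bg M N).IsBipartiteWith (M : Set V) ((Mᶜ : Finset V) : Set V) := by
    refine ⟨?_, ?_⟩
    · rw [Finset.disjoint_coe]
      exact disjoint_compl_right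
    · intro a b hab
      rcases hab with hab | hab
      · left
        exact ⟨hab.1, by simpa using hab.2.1⟩
      · right
        exact ⟨by simpa using hab.2.1, hab.1⟩
  have h1 := isBipartiteWith_sum_degrees_eq_card_edges hb
  rw [← SimpleGraph.coe_edgeFinset, Set.ncard_coe_finset, ← h1]
  refine Finset.sum_congr rfl fun u hu => ?_
  rw [← SimpleGraph.card_neighborFinset_eq_degree]
  congr 1
  ext x
  rw [SimpleGraph.mem_neighborFinset]
  constructor
  · rintro (h2 | h2)
    · exact h2.2.2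
    · exact absurd hu h2.2.1
  · intro hx
    exact Or.inl ⟨hu, h u hu x hx, hx⟩

theorem bg_le (G : SimpleGraph V) (M : Finset V) (N : V → Finset V)
    (h : ∀ u ∈ M, ∀ x ∈ N u, G.Adj u x) : bg M N ≤ G := by
  intro a b hab
  rcases hab with hab | hab
  · exact h a hab.1 b hab.2.2
  · exact (h b hab.1 a hab.2.2).symm

/-- The graph `bg M N` has no long path if the sets `N u` are small and pairwise equal or
disjoint. -/
theorem bg_free (t : ℕ) (M : Finset V) (N : V → Finset V) (hc : ∀ u ∈ M, (N u).card ≤ t)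
    (hd : ∀ u ∈ M, ∀ u' ∈ M, N u = N u' ∨ Disjoint (N u) (N u')) :
    (pathGraph (2 * t + 2)).Free (bg M N) := by
  rintro ⟨φ⟩
  have hadj : ∀ j : ℕ, (h : j + 1 < 2 * t + 2) →
      (bg M N).Adj (φ ⟨j, by omega⟩) (φ ⟨j + 1, h⟩) := by
    intro j h
    apply φ.toHom.map_adj
    rw [pathGraph_adj]
    exact Or.inl rfl
  -- the common set
  have hT : ∃ T : Finset V, T.card ≤ t ∧ ∀ j : ℕ, (h : j < 2 * t + 2) →
      (φ ⟨j, h⟩ ∈ M ∧ N (φ ⟨j, h⟩) = T) ∨ (φ ⟨j, h⟩ ∉ M ∧ φ ⟨j, h⟩ ∈ T) := by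
    have h01 := hadj 0 (by omega)
    have hstart : ∃ T : Finset V, T.card ≤ t ∧
      ((φ ⟨0, by omega⟩ ∈ M ∧ N (φ ⟨0, by omega⟩) = T) ∨
        (φ ⟨0, by omega⟩ ∉ M ∧ φ ⟨0, by omega⟩ ∈ T ∧ ∃ u ∈ M, N u = T)) := by
      rcases h01 with h01 | h01
      · exact ⟨_, hc _ h01.1, Or.inl ⟨h01.1, rfl⟩⟩
      · exact ⟨_, hc _ h01.1, Or.inr ⟨h01.2.1, h01.2.2, _, h01.1, rfl⟩⟩
    obtain ⟨T, hTc, hT0⟩ := hstart
    refine ⟨T, hTc, ?_⟩
    have hTM : ∃ u ∈ M, N u = T := by
      rcases hT0 with h | h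
      · exact ⟨_, h.1, h.2⟩
      · exact h.2.2
    obtain ⟨w, hw, hwT⟩ := hTM
    have key : ∀ u ∈ M, ∀ x ∈ N u, x ∈ T → N u = T := by
      intro u hu x hx hxT
      rcases hd u hu w hw with h | h
      · rw [h, hwT]
      · exfalso
        rw [hwT] at h
        exact Finset.disjoint_left.1 h hx hxT
    intro j
    induction j with
    | zero =>
      intro h
      rcases hT0 with h | h
      · exact Or.inl h
      · exact Or.inr ⟨h.1, h.2.1⟩
    | succ j ih =>
      intro h
      have h1 := ih (by omega)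
      rcases hadj j h with h2 | h2
      · rcases h1 with h3 | h3
        · right
          refine ⟨h2.2.1, ?_⟩
          rw [← h3.2]; exact h2.2.2
        · exact absurd h2.1 h3.1
      · rcases h1 with h3 | h3
        · exact absurd h3.1 h2.2.1
        · left
          exact ⟨h2.1, key _ h2.1 _ h2.2.2 h3.2⟩
  obtain ⟨T, hTc, hT⟩ := hT
  have hg : ∀ a : Fin (t + 1), ∃ j : Fin (2 * t + 2), (j.val = 2 * a.val ∨ j.val = 2 * a.val + 1) ∧
      φ j ∈ T := by
    intro a
    have ha := a.2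
    rcases hT (2 * a.val) (by omega) with h1 | h1
    · have h2 := hadj (2 * a.val) (by omega)
      rcases h2 with h2 | h2
      · refine ⟨⟨2 * a.val + 1, by omega⟩, Or.inr rfl, ?_⟩
        rw [← h1.2]; exact h2.2.2
      · exact absurd h1.1 h2.2.1
    · exact ⟨⟨2 * a.val, by omega⟩, Or.inl rfl, h1.2⟩
  choose g hg1 hg2 using hg
  have hinj : Function.Injective (fun a => φ (g a)) := by
    intro a b hab
    have h1 : g a = g b := φ.injective hab
    have h2 := hg1 a
    have h3 := hg1 b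
    rw [h1] at h2
    apply Fin.ext
    omega
  have hcard : (Finset.univ.image (fun a => φ (g a))).card ≤ T.card := by
    apply Finset.card_le_card
    intro x hx
    rw [Finset.mem_image] at hx
    obtain ⟨a, _, rfl⟩ := hx
    exact hg2 a
  rw [Finset.card_image_of_injective _ hinj, Finset.card_univ, Fintype.card_fin] at hcard
  omega

end Q116.Inv
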