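import Pool.Agent.Q116.Inv.Bg

set_option autoImplicit false

namespace Q116.Inv

open Finset SimpleGraph

variable {V : Type} [Fintype V] [DecidableEq V] (G : SimpleGraph V) [DecidableRel G.Adj]

/-- Hypothesis: every subgraph of `G` without a path with `2t+1` edges has less than `k` edges. -/
def Small (t k : ℕ) : Prop :=
  ∀ H : SimpleGraph V, H ≤ G → (pathGraph (2 * t + 2)).Free H → H.edgeSet.ncard < k

variable {G}

theorem star_lt {t k : ℕ} (ht : 1 ≤ t) (hG : Small G t k) (S : Finset V) (f : V → V)
    (hf : ∀ v ∈ S, f v ∉ S ∧ G.Adj v (f v)) : S.card < k := by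
  have h1 : (bg S (fun v => {f v})).edgeSet.ncard = S.card := by
    rw [bg_card S (fun v => {f v}) (fun u hu x hx => by
      rw [Finset.mem_singleton] at hx
      rw [hx]; exact (hf u hu).1)]
    simp
  rw [← h1]
  apply hG
  · exact bg_le G S _ (fun u hu x hx => by
      rw [Finset.mem_singleton] at hx
      rw [hx]; exact (hf u hu).2)
  · refine bg_free t S _ (fun u _ => by simpa using ht) (fun u _ u' _ => ?_)
    by_cases h : f u = f u'
    · left; rw [h]
    · right; simpa using h

/-- The set of non-isolated vertices. -/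
def supp (G : SimpleGraph V) [DecidableRel G.Adj] : Finset V :=
  Finset.univ.filter (fun v => ∃ u, G.Adj v u)

theorem supp_card {t k : ℕ} (ht : 1 ≤ t) (hG : Small G t k) : (supp G).card ≤ 2 * k := by
  classical
  -- a maximum independent set
  obtain ⟨I, hI, hmax⟩ := Finset.exists_max_image
    (Finset.univ.filter (fun I : Finset V => ∀ x ∈ I, ∀ y ∈ I, ¬ G.Adj x y)) Finset.card
    ⟨∅, by simp⟩
  rw [Finset.mem_filter] at hI
  have hdom : ∀ v, v ∉ I → ∃ u ∈ I, G.Adj v u := by
    intro v hv
    by_contra hcon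
    push Not at hcon
    have h1 : insert v I ∈ Finset.univ.filter
        (fun I : Finset V => ∀ x ∈ I, ∀ y ∈ I, ¬ G.Adj x y) := by
      rw [Finset.mem_filter]
      refine ⟨Finset.mem_univ _, ?_⟩
      intro x hx y hy
      rw [Finset.mem_insert] at hx hy
      rcases hx with rfl | hx
      · rcases hy with rfl | hy
        · exact G.loopless.irrefl _
        · exact hcon y hy
      · rcases hy with rfl | hy
        · exact fun h => hcon x hx h.symm
        · exact hI.2 x hx y hy
    have h2 := hmax _ h1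
    rw [Finset.card_insert_of_notMem hv] at h2
    omega
  have hne : ∀ v : V, ∃ u : V, (v ∉ I → u ∈ I ∧ G.Adj v u) ∧
      (v ∈ I → (∃ w, G.Adj v w) → G.Adj v u) := by
    intro v
    by_cases hv : v ∈ I
    · by_cases hw : ∃ w, G.Adj v w
      · obtain ⟨w, hw⟩ := hw
        exact ⟨w, fun h => absurd hv h, fun _ _ => hw⟩
      · exact ⟨v, fun h => absurd hv h, fun _ h => absurd h hw⟩
    · obtain ⟨u, hu, hvu⟩ := hdom v hv
      exact ⟨u, fun _ => ⟨hu, hvu⟩, fun h => absurd h hv⟩
  choose f hf1 hf2 using hne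
  have h1 : Iᶜ.card < k := star_lt ht hG Iᶜ f (fun v hv => by
    rw [Finset.mem_compl] at hv
    have := hf1 v hv
    exact ⟨by simpa using this.1, this.2⟩)
  have h2 : (I.filter (fun v => ∃ u, G.Adj v u)).card < k :=
    star_lt ht hG _ f (fun v hv => by
      rw [Finset.mem_filter] at hv
      have := hf2 v hv.1 hv.2
      refine ⟨?_, this⟩
      intro h3
      rw [Finset.mem_filter] at h3
      exact hI.2 v hv.1 _ h3.1 this)
  have h3 : supp G ⊆ Iᶜ ∪ I.filter (fun v => ∃ u, G.Adj v u) := by
    intro v hv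
    unfold supp at hv
    rw [Finset.mem_filter] at hv
    rw [Finset.mem_union, Finset.mem_compl, Finset.mem_filter]
    by_cases h : v ∈ I
    · exact Or.inr ⟨h, hv.2⟩
    · exact Or.inl h
  have h4 := Finset.card_le_card h3
  have h5 := Finset.card_union_le Iᶜ (I.filter (fun v => ∃ u, G.Adj v u))
  omega

/-- One step: a `t`-set with many common neighbours in `U`. -/
theorem one_step (t k z : ℕ) (d : ℝ) (hd : 0 < d) (hW : (supp G).card ≤ 2 * k) (hk : 0 < k)
    (U Z : Finset V) (hZ : Z.card ≤ z) (hdeg : ∀ u ∈ U, d * k ≤ G.degree u)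
    (hbig : (z : ℝ) + t ≤ d * k / 2) (hU : U.Nonempty) :
    ∃ T : Finset V, T.card = t ∧ Disjoint T Z ∧
      (d / 4) ^ t * U.card ≤ ((U.filter (fun u => ∀ x ∈ T, G.Adj u x)).card : ℝ) := by
  classical
  set A := supp G \ Z with hA
  have hAc : A.card ≤ 2 * k := (Finset.card_le_card Finset.sdiff_subset).trans hW
  have hdk : 0 < d * k := by positivity
  -- each vertex of U has many neighbours in A
  have hm : ∀ u ∈ U, (d * k / 2 + t : ℝ) ≤ ((A.filter (fun x => G.Adj u x)).card : ℝ) := by
    intro u hu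
    have h1 : G.neighborFinset u ⊆ A.filter (fun x => G.Adj u x) ∪ Z := by
      intro x hx
      rw [SimpleGraph.mem_neighborFinset] at hx
      by_cases hxZ : x ∈ Z
      · exact Finset.mem_union_right _ hxZ
      · apply Finset.mem_union_left
        rw [Finset.mem_filter, hA, Finset.mem_sdiff]
        refine ⟨⟨?_, hxZ⟩, hx⟩
        unfold supp
        rw [Finset.mem_filter]
        exact ⟨Finset.mem_univ _, u, hx.symm⟩
    have h2 := (Finset.card_le_card h1).trans (Finset.card_union_le _ _)
    rw [SimpleGraph.card_neighborFinset_eq_degree] at h2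
    have h3 := hdeg u hu
    have h4 : (G.degree u : ℝ) ≤ ((A.filter (fun x => G.Adj u x)).card : ℝ) + Z.card := by
      exact_mod_cast h2
    have h5 : (Z.card : ℝ) ≤ z := by exact_mod_cast hZ
    linarith
  -- double counting
  have hdc : ∑ T ∈ A.powersetCard t, ((U.filter (fun u => ∀ x ∈ T, G.Adj u x)).card : ℝ) =
      ∑ u ∈ U, (((A.filter (fun x => G.Adj u x)).card.choose t : ℕ) : ℝ) := by
    have h1 : ∀ u : V, ((A.filter (fun x => G.Adj u x)).card.choose t) =
        ((A.powersetCard t).filter (fun T => ∀ x ∈ T, G.Adj u x)).card := by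
      intro u
      rw [← Finset.card_powersetCard]
      congr 1
      ext T
      simp only [Finset.mem_powersetCard, Finset.mem_filter, Finset.subset_iff]
      constructor
      · rintro ⟨h2, h3⟩
        exact ⟨⟨fun x hx => (h2 hx).1, h3⟩, fun x hx => (h2 hx).2⟩
      · rintro ⟨⟨h2, h3⟩, h4⟩
        exact ⟨fun x hx => ⟨h2 hx, h4 x hx⟩, h3⟩
    simp_rw [h1, Finset.card_filter]
    push_cast
    exact Finset.sum_comm
  by_contra hcon
  push Not at hcon
  obtain ⟨u0, hu0⟩ := hU
  have hAt : (A.powersetCard t).Nonempty := by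
    apply Finset.powersetCard_nonempty.2
    have h1 := hm u0 hu0
    have h2 := Finset.card_filter_le A (fun x => G.Adj u0 x)
    have h3 : (t : ℝ) ≤ (A.card : ℝ) := by
      have : ((A.filter (fun x => G.Adj u0 x)).card : ℝ) ≤ A.card := by exact_mod_cast h2
      linarith
    exact_mod_cast h3
  have hlt : ∑ T ∈ A.powersetCard t, ((U.filter (fun u => ∀ x ∈ T, G.Adj u x)).card : ℝ) <
      ∑ T ∈ A.powersetCard t, ((d / 4) ^ t * U.card : ℝ) := by
    apply Finset.sum_lt_sum_of_nonempty hAt
    intro T hT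
    rw [Finset.mem_powersetCard] at hT
    apply hcon T hT.2
    rw [Finset.disjoint_left]
    intro x hx hxZ
    have := hT.1 hx
    rw [hA, Finset.mem_sdiff] at this
    exact this.2 hxZ
  rw [hdc, Finset.sum_const, Finset.card_powersetCard, nsmul_eq_mul] at hlt
  have hlow : ∑ u ∈ U, (((A.filter (fun x => G.Adj u x)).card.choose t : ℕ) : ℝ) ≥
      U.card * ((d * k / 2) ^ t / t.factorial) := by
    rw [← nsmul_eq_mul]
    apply Finset.card_nsmul_le_sum
    intro u hu
    have h1 := hm u hu
    set m := (A.filter (fun x => G.Adj u x)).card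
    have h2 : t ≤ m := by
      have : (t : ℝ) ≤ m := by linarith
      exact_mod_cast this
    have h3 : ((m + 1 - t : ℕ) : ℝ) ^ t / t.factorial ≤ (m.choose t : ℝ) := by
      exact_mod_cast Nat.pow_le_choose (α := ℝ) t m
    have h4 : (d * k / 2) ^ t ≤ ((m + 1 - t : ℕ) : ℝ) ^ t := by
      apply pow_le_pow_left₀ (by positivity)
      rw [Nat.cast_sub (by omega)]
      push_cast
      linarith
    exact (div_le_div_of_nonneg_right h4 (by positivity)).trans h3
  have hup : ((A.card.choose t : ℕ) : ℝ) ≤ (2 * k) ^ t / t.factorial := by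
    have h1 : ((A.card.choose t : ℕ) : ℝ) ≤ (A.card : ℝ) ^ t / t.factorial :=
      Nat.choose_le_pow_div t A.card
    refine h1.trans ?_
    apply div_le_div_of_nonneg_right _ (by positivity)
    apply pow_le_pow_left₀ (by positivity)
    exact_mod_cast hAc
  have h9 : ((A.card.choose t : ℕ) : ℝ) * ((d / 4) ^ t * U.card) ≤
      (2 * k) ^ t / t.factorial * ((d / 4) ^ t * U.card) :=
    mul_le_mul_of_nonneg_right hup (by positivity)
  have h10 : (2 * k : ℝ) ^ t / t.factorial * ((d / 4) ^ t * U.card) =
      U.card * ((d * k / 2) ^ t / t.factorial) := by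
    have : (d * k / 2 : ℝ) ^ t = (2 * k) ^ t * (d / 4) ^ t := by
      rw [← mul_pow]; congr 1; ring
    rw [this]; ring
  linarith

end Q116.Inv
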