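import Mathlib

set_option autoImplicit false

namespace Q116.Inv

open Finset

variable {V : Type} [DecidableEq V] (G : SimpleGraph V) [DecidableRel G.Adj]

/-- Degree of `v` into `S`. -/
def dg (S : Finset V) (v : V) : ℕ := (S.filter (G.Adj v)).card

/-- Sum of the degrees inside `S`. -/
def D (S : Finset V) : ℕ := ∑ v ∈ S, dg G S v

/-- `p` is a path inside `S`. -/
def IsP (S : Finset V) (p : List V) : Prop := p.Nodup ∧ p.IsChain G.Adj ∧ ∀ x ∈ p, x ∈ S

theorem D_erase (S : Finset V) (v : V) (hv : v ∈ S) : D G S = D G (S.erase v) + 2 * dg G S v := by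
  unfold D
  rw [← Finset.add_sum_erase S _ hv]
  have h1 : ∀ u ∈ S.erase v, dg G S u = dg G (S.erase v) u + (if G.Adj v u then 1 else 0) := by
    intro u hu
    unfold dg
    have h2 : S.filter (G.Adj u) = (S.erase v).filter (G.Adj u) ∪
        (if G.Adj v u then {v} else ∅) := by
      ext w
      by_cases hw : w = v
      · subst hw
        by_cases h : G.Adj w u
        · simp [h, h.symm, hv]
        · have h' : ¬ G.Adj u w := fun h3 => h h3.symm
          simp [h, h']
      · by_cases h : G.Adj v u <;> simp [h, hw]
    rw [h2, Finset.card_union_of_disjoint]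
    · by_cases h : G.Adj v u <;> simp [h]
    · by_cases h : G.Adj v u <;> simp [h]
  rw [Finset.sum_congr rfl h1, Finset.sum_add_distrib]
  have h3 : ∑ u ∈ S.erase v, (if G.Adj v u then 1 else 0) = dg G S v := by
    unfold dg
    rw [Finset.card_filter, ← Finset.add_sum_erase S _ hv]
    simp
  rw [h3]
  ring

theorem D_split (S P : Finset V) (hP : P ⊆ S)
    (h : ∀ x ∈ P, ∀ y ∈ S \ P, ¬ G.Adj x y) : D G S = D G P + D G (S \ P) := by
  unfold D
  rw [← Finset.sum_sdiff hP, add_comm]
  congr 1
  · refine Finset.sum_congr rfl fun x hx => ?_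
    unfold dg
    congr 1
    ext y
    simp only [Finset.mem_filter]
    constructor
    · rintro ⟨h1, h2⟩
      refine ⟨?_, h2⟩
      by_contra h3
      exact h x hx y (Finset.mem_sdiff.2 ⟨h1, h3⟩) h2
    · rintro ⟨h1, h2⟩
      exact ⟨hP h1, h2⟩
  · refine Finset.sum_congr rfl fun x hx => ?_
    unfold dg
    congr 1
    ext y
    simp only [Finset.mem_filter, Finset.mem_sdiff]
    constructor
    · rintro ⟨h1, h2⟩
      refine ⟨⟨h1, ?_⟩, h2⟩
      intro h3
      exact h y h3 x hx h2.symm
    · rintro ⟨⟨h1, _⟩, h2⟩
      exact ⟨h1, h2⟩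

theorem D_le (P : Finset V) : D G P ≤ P.card * (P.card - 1) := by
  unfold D
  rw [← smul_eq_mul]
  refine Finset.sum_le_card_nsmul _ _ _ fun x hx => ?_
  unfold dg
  have : P.filter (G.Adj x) ⊆ P.erase x := by
    intro y hy
    rw [Finset.mem_filter] at hy
    exact Finset.mem_erase.2 ⟨hy.2.ne', hy.1⟩
  refine (Finset.card_le_card this).trans ?_
  rw [Finset.card_erase_of_mem hx]

variable {G}

/-- A closed chain can be opened at any vertex. -/
theorem open_cycle (c : List V) (hc : c.IsChain G.Adj)
    (hcl : ∀ x ∈ c.getLast?, ∀ y ∈ c.head?, G.Adj x y) (y : V) (hy : y ∈ c) (x : V)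
    (hxy : G.Adj x y) : ∃ q : List V, q.Perm c ∧ (x :: q).IsChain G.Adj := by
  obtain ⟨c1, c2, rfl⟩ := List.append_of_mem hy
  refine ⟨(y :: c2) ++ c1, List.perm_append_comm, ?_⟩
  rw [List.isChain_append] at hc
  obtain ⟨h1, h2, _⟩ := hc
  have h3 : ((y :: c2) ++ c1).IsChain G.Adj := by
    rw [List.isChain_append]
    refine ⟨h2, h1, ?_⟩
    intro u hu w hw
    apply hcl
    · rw [List.getLast?_append]
      simp only [Option.mem_def] at hu ⊢
      rw [hu]; rfl
    · cases c1 with
      | nil => simp at hw
      | cons a l => simpa using hw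
  rw [List.cons_append] at h3 ⊢
  exact List.IsChain.cons_cons hxy h3

/-- The rotation step. -/
theorem cycle_of_cross (p : List V) (hp : p.IsChain G.Adj) (i : ℕ) (hi : i + 1 < p.length)
    (h0 : G.Adj (p[0]'(by omega)) (p[i+1])) (hl : G.Adj (p[p.length - 1]'(by omega)) (p[i])) :
    ∃ c : List V, c.Perm p ∧ c.IsChain G.Adj ∧
      ∀ x ∈ c.getLast?, ∀ y ∈ c.head?, G.Adj x y := by
  have hsplit : p.take (i + 1) ++ p.drop (i + 1) = p := List.take_append_drop _ _
  have hchain := hp
  rw [← hsplit, List.isChain_append] at hchain
  obtain ⟨ha, hb, _⟩ := hchain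
  refine ⟨p.take (i + 1) ++ (p.drop (i + 1)).reverse, ?_, ?_, ?_⟩
  · calc (p.take (i + 1) ++ (p.drop (i + 1)).reverse).Perm (p.take (i + 1) ++ p.drop (i + 1)) :=
        (List.reverse_perm _).append_left _
      _ = p := hsplit
  · rw [List.isChain_append]
    refine ⟨ha, ?_, ?_⟩
    · rw [List.isChain_reverse]
      exact hb.imp fun _ _ h => h.symm
    · intro x hx y hy
      rw [List.head?_reverse] at hy
      rw [List.getLast?_take] at hx
      rw [List.getLast?_drop] at hy
      have e1 : x = p[i] := by
        simp only [Nat.add_one_ne_zero, if_false, Nat.add_sub_cancel] at hx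
        rw [List.getElem?_eq_getElem (by omega)] at hx
        simpa using hx.symm
      have e2 : y = p[p.length - 1]'(by omega) := by
        rw [if_neg (by omega), List.getLast?_eq_getElem?, List.getElem?_eq_getElem (by omega)] at hy
        simpa using hy.symm
      subst e1 e2
      exact hl.symm
  · intro x hx y hy
    rw [List.getLast?_append] at hx
    have e1 : x = p[i+1] := by
      rw [List.getLast?_reverse, List.head?_drop, List.getElem?_eq_getElem (by omega)] at hx
      simpa using hx.symm
    have e2 : y = p[0]'(by omega) := by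
      rw [List.head?_append] at hy
      rw [List.head?_take, if_neg (by omega), List.head?_eq_getElem?,
        List.getElem?_eq_getElem (by omega)] at hy
      simpa using hy.symm
    subst e1 e2
    exact h0.symm


theorem longer (S : Finset V) (p : List V) (hp : IsP G S p) (i : ℕ) (hi : i + 1 < p.length)
    (h0 : G.Adj (p[0]'(by omega)) (p[i+1])) (hl : G.Adj (p[p.length - 1]'(by omega)) (p[i]))
    (x : V) (hx : x ∈ S) (hxp : x ∉ p) (y : V) (hy : y ∈ p) (hxy : G.Adj x y) :
    ∃ q : List V, IsP G S q ∧ q.length = p.length + 1 := by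
  obtain ⟨c, hcp, hc, hcl⟩ := cycle_of_cross p hp.2.1 i hi h0 hl
  obtain ⟨q, hq, hqc⟩ := open_cycle c hc hcl y (hcp.mem_iff.2 hy) x hxy
  have hqp : q.Perm p := hq.trans hcp
  refine ⟨x :: q, ⟨?_, hqc, ?_⟩, ?_⟩
  · rw [List.nodup_cons]
    exact ⟨fun h => hxp (hqp.mem_iff.1 h), hqp.nodup_iff.2 hp.1⟩
  · intro z hz
    rcases List.mem_cons.1 hz with h | h
    · rw [h]; exact hx
    · exact hp.2.2 z (hqp.mem_iff.1 h)
  · rw [List.length_cons, hqp.length_eq]

theorem dg_first (S : Finset V) (p : List V) (hL : 0 < p.length)
    (h : ∀ x ∈ S, G.Adj (p[0]) x → x ∈ p) :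
    dg G S (p[0]) ≤ ((Finset.range (p.length - 1)).filter
      (fun i => ∃ h : i + 1 < p.length, G.Adj (p[0]) (p[i+1]))).card := by
  unfold dg
  apply Finset.card_le_card_of_injOn (fun x => p.idxOf x - 1)
  · intro x hx
    rw [Finset.mem_coe, Finset.mem_filter] at hx
    have hxp := h x hx.1 hx.2
    have h1 : p.idxOf x < p.length := List.idxOf_lt_length_iff.2 hxp
    have h2 : p[p.idxOf x] = x := List.getElem_idxOf h1
    have h3 : p.idxOf x ≠ 0 := by
      intro h4
      have h5 : p[0] = x := by
        rw [← h2]; congr 1; exact h4.symm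
      exact hx.2.ne h5
    have h6 : p.idxOf x - 1 + 1 = p.idxOf x := by omega
    rw [Finset.mem_coe, Finset.mem_filter, Finset.mem_range]
    dsimp only
    refine ⟨by omega, by omega, ?_⟩
    have h7 : p[p.idxOf x - 1 + 1]'(by omega) = x := by
      simp only [h6]
      exact h2
    rw [h7]
    exact hx.2
  · intro x hx y hy hxy
    rw [Finset.mem_coe, Finset.mem_filter] at hx hy
    have hxp := h x hx.1 hx.2
    have hyp := h y hy.1 hy.2
    have h1 : p.idxOf x < p.length := List.idxOf_lt_length_iff.2 hxp
    have h2 : p[p.idxOf x] = x := List.getElem_idxOf h1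
    have h1' : p.idxOf y < p.length := List.idxOf_lt_length_iff.2 hyp
    have h2' : p[p.idxOf y] = y := List.getElem_idxOf h1'
    have h3 : p.idxOf x ≠ 0 := by
      intro h4
      have h5 : p[0] = x := by
        rw [← h2]; congr 1; exact h4.symm
      exact hx.2.ne h5
    have h3' : p.idxOf y ≠ 0 := by
      intro h4
      have h5 : p[0] = y := by
        rw [← h2']; congr 1; exact h4.symm
      exact hy.2.ne h5
    simp only at hxy
    have h8 : p.idxOf x = p.idxOf y := by omega
    rw [← h2, ← h2']
    congr 1

theorem dg_last (S : Finset V) (p : List V) (hL : 0 < p.length)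
    (h : ∀ x ∈ S, G.Adj (p[p.length - 1]) x → x ∈ p) :
    dg G S (p[p.length - 1]) ≤ ((Finset.range (p.length - 1)).filter
      (fun i => ∃ h : i < p.length, G.Adj (p[p.length - 1]) (p[i]))).card := by
  unfold dg
  apply Finset.card_le_card_of_injOn (fun x => p.idxOf x)
  · intro x hx
    rw [Finset.mem_coe, Finset.mem_filter] at hx
    have hxp := h x hx.1 hx.2
    have h1 : p.idxOf x < p.length := List.idxOf_lt_length_iff.2 hxp
    have h2 : p[p.idxOf x] = x := List.getElem_idxOf h1
    have h3 : p.idxOf x ≠ p.length - 1 := by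
      intro h4
      have h5 : p[p.length - 1] = p[p.idxOf x] := by
        congr 1; exact h4.symm
      exact hx.2.ne (h5.trans h2)
    rw [Finset.mem_coe, Finset.mem_filter, Finset.mem_range]
    dsimp only
    refine ⟨by omega, h1, ?_⟩
    rw [h2]
    exact hx.2
  · intro x hx y hy hxy
    rw [Finset.mem_coe, Finset.mem_filter] at hx hy
    have hxp := h x hx.1 hx.2
    have hyp := h y hy.1 hy.2
    have h1 : p.idxOf x < p.length := List.idxOf_lt_length_iff.2 hxp
    have h2 : p[p.idxOf x] = x := List.getElem_idxOf h1
    have h1' : p.idxOf y < p.length := List.idxOf_lt_length_iff.2 hyp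
    have h2' : p[p.idxOf y] = y := List.getElem_idxOf h1'
    simp only at hxy
    rw [← h2, ← h2']
    congr 1

/-- Erdős–Gallai theorem for paths, inside a vertex set `S`. -/
theorem erdos_gallai (m : ℕ) : ∀ (S : Finset V), (∀ p : List V, IsP G S p → p.length ≤ m) →
    D G S ≤ (m - 1) * S.card := by
  intro S
  induction S using Finset.strongInduction with
  | H S ih =>
  intro hS
  by_cases hlow : ∃ v ∈ S, 2 * dg G S v ≤ m - 1
  · obtain ⟨v, hv, hd⟩ := hlow
    have h1 := ih (S.erase v) (Finset.erase_ssubset hv) (fun p hp => hS p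
      ⟨hp.1, hp.2.1, fun x hx => Finset.mem_of_mem_erase (hp.2.2 x hx)⟩)
    rw [D_erase G S v hv]
    have h2 := Finset.card_erase_add_one hv
    rw [← h2, mul_add, mul_one]
    omega
  · push Not at hlow
    rcases S.eq_empty_or_nonempty with rfl | ⟨v0, hv0⟩
    · simp [D]
    · -- a longest path
      have hex : ∃ L, (∃ p : List V, IsP G S p ∧ p.length = L) ∧
          ∀ p : List V, IsP G S p → p.length ≤ L := by
        classical
        have hne : ∃ L, ∃ p : List V, IsP G S p ∧ p.length = L :=
          ⟨1, [v0], ⟨by simp, by simp, by simpa using hv0⟩, rfl⟩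
        have hb : ∀ L, (∃ p : List V, IsP G S p ∧ p.length = L) → L ≤ m := by
          rintro L ⟨p, hp, rfl⟩
          exact hS p hp
        obtain ⟨L0, hL0⟩ := hne
        refine ⟨Nat.findGreatest (fun L => ∃ p : List V, IsP G S p ∧ p.length = L) m, ?_, ?_⟩
        · exact Nat.findGreatest_spec (P := fun L => ∃ p : List V, IsP G S p ∧ p.length = L)
            (hb L0 hL0) hL0
        · intro p hp
          exact Nat.le_findGreatest (hS p hp) ⟨p, hp, rfl⟩
      obtain ⟨L, ⟨p, hp, hpL⟩, hmax⟩ := hex
      have hL1 : 1 ≤ L := hmax [v0] ⟨by simp, by simp, by simpa using hv0⟩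
      have hLm : L ≤ m := by rw [← hpL]; exact hS p hp
      have hnb0 : ∀ x ∈ S, G.Adj (p[0]'(by omega)) x → x ∈ p := by
        intro x hx hadj
        by_contra hxp
        have : IsP G S (x :: p) := by
          refine ⟨List.nodup_cons.2 ⟨hxp, hp.1⟩, ?_, ?_⟩
          · cases p with
            | nil => simp at hpL; omega
            | cons a l => exact List.IsChain.cons_cons hadj.symm hp.2.1
          · intro z hz
            rcases List.mem_cons.1 hz with h | h
            · rw [h]; exact hx
            · exact hp.2.2 z h
        have := hmax _ this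
        rw [List.length_cons] at this
        omega
      have hnbl : ∀ x ∈ S, G.Adj (p[p.length - 1]'(by omega)) x → x ∈ p := by
        intro x hx hadj
        by_contra hxp
        have : IsP G S (p ++ [x]) := by
          refine ⟨?_, ?_, ?_⟩
          · rw [List.nodup_append]
            refine ⟨hp.1, by simp, ?_⟩
            intro a ha b hb hab
            rw [List.mem_singleton] at hb
            rw [hab, hb] at ha
            exact hxp ha
          · rw [List.isChain_append]
            refine ⟨hp.2.1, by simp, ?_⟩
            intro u hu w hw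
            rw [List.getLast?_eq_getElem?, List.getElem?_eq_getElem (by omega)] at hu
            simp only [List.head?_cons, Option.mem_def, Option.some.injEq] at hu hw
            rw [← hu, ← hw]
            exact hadj
          · intro z hz
            rcases List.mem_append.1 hz with h | h
            · exact hp.2.2 z h
            · rw [List.mem_singleton] at h
              rw [h]; exact hx
        have := hmax _ this
        rw [List.length_append] at this
        simp at this
        omega
      have hd0 := dg_first S p (by omega) hnb0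
      have hdl := dg_last S p (by omega) hnbl
      have hs0 := hlow _ (hp.2.2 (p[0]'(by omega)) (List.getElem_mem _))
      have hsl := hlow _ (hp.2.2 (p[p.length - 1]'(by omega)) (List.getElem_mem _))
      -- crossing
      have hcross : ∃ i, ∃ h : i + 1 < p.length, G.Adj (p[0]'(by omega)) (p[i+1]) ∧
          G.Adj (p[p.length - 1]'(by omega)) (p[i]) := by
        by_contra hcon
        push Not at hcon
        have hdisj : Disjoint ((Finset.range (p.length - 1)).filter
            (fun i => ∃ h : i + 1 < p.length, G.Adj (p[0]'(by omega)) (p[i+1])))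
            ((Finset.range (p.length - 1)).filter
            (fun i => ∃ h : i < p.length, G.Adj (p[p.length - 1]'(by omega)) (p[i]))) := by
          rw [Finset.disjoint_left]
          intro i hi hi'
          rw [Finset.mem_filter] at hi hi'
          obtain ⟨_, h1, h2⟩ := hi
          obtain ⟨_, _, h3⟩ := hi'
          exact hcon i h1 h2 h3
        have hcard := Finset.card_union_of_disjoint hdisj
        have hsub : (((Finset.range (p.length - 1)).filter
            (fun i => ∃ h : i + 1 < p.length, G.Adj (p[0]'(by omega)) (p[i+1]))) ∪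
            ((Finset.range (p.length - 1)).filter
            (fun i => ∃ h : i < p.length, G.Adj (p[p.length - 1]'(by omega)) (p[i])))).card
            ≤ p.length - 1 := by
          refine (Finset.card_le_card (Finset.union_subset (Finset.filter_subset _ _)
            (Finset.filter_subset _ _))).trans ?_
          rw [Finset.card_range]
        omega
      obtain ⟨i, hi, h0, hl⟩ := hcross
      set P : Finset V := p.toFinset with hPdef
      have hPS : P ⊆ S := fun x hx => hp.2.2 x (List.mem_toFinset.1 hx)
      have hPc : P.card = L := by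
        rw [hPdef, List.toFinset_card_of_nodup hp.1, hpL]
      have hno : ∀ x ∈ P, ∀ y ∈ S \ P, ¬ G.Adj x y := by
        intro y hy x hx hadj
        rw [Finset.mem_sdiff] at hx
        obtain ⟨q, hq, hql⟩ := longer S p hp i hi h0 hl x hx.1
          (fun h => hx.2 (List.mem_toFinset.2 h)) y (List.mem_toFinset.1 hy) hadj.symm
        have := hmax q hq
        omega
      rw [D_split G S P hPS hno]
      have h1 := D_le G P
      have hss : S \ P ⊂ S := by
        refine Finset.ssubset_iff_subset_ne.2 ⟨Finset.sdiff_subset, ?_⟩
        intro h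
        have hc := Finset.card_sdiff_add_card_eq_card hPS
        rw [h] at hc
        omega
      have h2 := ih (S \ P) hss (fun q hq => hS q
        ⟨hq.1, hq.2.1, fun x hx => Finset.sdiff_subset (hq.2.2 x hx)⟩)
      have h3 := Finset.card_sdiff_add_card_eq_card hPS
      rw [← h3, mul_add]
      have h4 : P.card * (P.card - 1) ≤ (m - 1) * P.card := by
        rw [mul_comm]
        exact Nat.mul_le_mul_right _ (by omega)
      omega

end Q116.Inv
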