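import Pool.Agent.Q116.Inv.Path

set_option autoImplicit false

namespace Q116.Inv

open Finset SimpleGraph

/-- A list path with `m + 1` vertices gives a copy of the path graph. -/
theorem copy_of_list {V : Type} (G : SimpleGraph V) (p : List V) (m : ℕ) (hp : p.Nodup)
    (hc : p.IsChain G.Adj) (hm : m ≤ p.length) : (pathGraph m) ⊑ G := by
  have hadj : ∀ i : ℕ, (h : i + 1 < p.length) → G.Adj (p[i]) (p[i+1]) := by
    intro i h
    exact (List.isChain_iff_getElem.1 hc) i h
  refine ⟨⟨⟨fun i => p[i.val]'(by have := i.2; omega), ?_⟩, ?_⟩⟩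
  · intro a b hab
    rw [pathGraph_adj] at hab
    rcases hab with h | h
    · have := hadj a.val (by have := b.2; omega)
      simp only [h] at this
      exact this
    · have := hadj b.val (by have := a.2; omega)
      simp only [h] at this
      exact this.symm
  · intro a b hab
    apply Fin.ext
    exact (List.Nodup.getElem_inj_iff hp).1 hab

theorem eg_graph {V : Type} [Fintype V] (H : SimpleGraph V) (m : ℕ)
    (hfree : (pathGraph (m + 1)).Free H) :
    2 * H.edgeSet.ncard ≤ (m - 1) * Fintype.card V := by
  classical
  have h1 := erdos_gallai (G := H) m Finset.univ (fun p hp => by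
    by_contra hcon
    push Not at hcon
    exact hfree (copy_of_list H p (m + 1) hp.1 hp.2.1 hcon))
  have h2 : D H Finset.univ = 2 * H.edgeSet.ncard := by
    rw [← SimpleGraph.coe_edgeFinset, Set.ncard_coe_finset, ← H.sum_degrees_eq_twice_card_edges]
    unfold D dg
    refine Finset.sum_congr rfl fun v _ => ?_
    rw [← SimpleGraph.card_neighborFinset_eq_degree, SimpleGraph.neighborFinset_eq_filter]
  rw [h2, Finset.card_univ] at h1
  exact h1

end Q116.Inv
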