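import Pool.Agent.Q116.Inv.Greedy

set_option autoImplicit false

namespace Q116.Inv

open Finset SimpleGraph

variable {V : Type} [Fintype V] [DecidableEq V] {G : SimpleGraph V} [DecidableRel G.Adj]

/-- Greedy covering by common neighbourhoods of disjoint `t`-sets. -/
theorem greedy (t k : ℕ) (d : ℝ) (hd : 0 < d) (hd1 : d ≤ 4) (hW : (supp G).card ≤ 2 * k)
    (hk : 0 < k) (U : Finset V) (hdeg : ∀ u ∈ U, d * k ≤ G.degree u) (s : ℕ)
    (hbig : ((s * t : ℕ) : ℝ) + t ≤ d * k / 2) :
    ∃ (M : Finset V) (N : V → Finset V), M ⊆ U ∧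
      (∀ u ∈ M, (N u).card = t ∧ ∀ x ∈ N u, G.Adj u x) ∧
      (∀ u ∈ M, ∀ u' ∈ M, N u = N u' ∨ Disjoint (N u) (N u')) ∧
      (M.biUnion N).card ≤ s * t ∧
      ((U \ M).card : ℝ) ≤ (1 - (d / 4) ^ t) ^ s * U.card := by
  induction s with
  | zero => exact ⟨∅, fun _ => ∅, by simp, by simp, by simp, by simp, by simp⟩
  | succ s ih =>
    have hbig' : ((s * t : ℕ) : ℝ) + t ≤ d * k / 2 := by
      refine le_trans ?_ hbig
      push_cast
      nlinarith [(Nat.cast_nonneg t : (0 : ℝ) ≤ t)]
    obtain ⟨M, N, h1, h2, h3, h4, h5⟩ := ih hbig'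
    have hc0 : 0 ≤ 1 - (d / 4) ^ t := by
      have : (d / 4) ^ t ≤ 1 := pow_le_one₀ (by positivity) (by linarith)
      linarith
    rcases (U \ M).eq_empty_or_nonempty with hU | hU
    · refine ⟨M, N, h1, h2, h3, h4.trans (by nlinarith), ?_⟩
      rw [hU]
      simp only [Finset.card_empty, Nat.cast_zero]
      positivity
    · obtain ⟨T, hT1, hT2, hT3⟩ := one_step t k (s * t) d hd hW hk (U \ M) (M.biUnion N) h4
        (fun u hu => hdeg u (Finset.sdiff_subset hu)) hbig' hU
      set C := (U \ M).filter (fun u => ∀ x ∈ T, G.Adj u x) with hC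
      refine ⟨M ∪ C, fun u => if u ∈ M then N u else T, ?_, ?_, ?_, ?_, ?_⟩
      · exact Finset.union_subset h1 ((Finset.filter_subset _ _).trans Finset.sdiff_subset)
      · intro u hu
        by_cases huM : u ∈ M
        · simp only [huM, if_true]
          exact h2 u huM
        · simp only [huM, if_false]
          rw [Finset.mem_union] at hu
          have huC := hu.resolve_left huM
          rw [hC, Finset.mem_filter] at huC
          exact ⟨hT1, huC.2⟩
      · have key : ∀ u ∈ M, Disjoint (N u) T := by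
          intro u hu
          rw [Finset.disjoint_left]
          intro x hx hxT
          exact Finset.disjoint_left.1 hT2 hxT (Finset.mem_biUnion.2 ⟨u, hu, hx⟩)
        intro u hu u' hu'
        by_cases huM : u ∈ M <;> by_cases huM' : u' ∈ M
        · simp only [huM, huM', if_true]
          exact h3 u huM u' huM'
        · simp only [huM, huM', if_true, if_false]
          exact Or.inr (key u huM)
        · simp only [huM, huM', if_true, if_false]
          exact Or.inr (key u' huM').symm
        · left
          simp only [huM, huM', if_false]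
      · have : (M ∪ C).biUnion (fun u => if u ∈ M then N u else T) ⊆ M.biUnion N ∪ T := by
          intro x hx
          rw [Finset.mem_biUnion] at hx
          obtain ⟨u, hu, hx⟩ := hx
          by_cases huM : u ∈ M
          · simp only [huM, if_true] at hx
            exact Finset.mem_union_left _ (Finset.mem_biUnion.2 ⟨u, huM, hx⟩)
          · simp only [huM, if_false] at hx
            exact Finset.mem_union_right _ hx
        refine (Finset.card_le_card this).trans ((Finset.card_union_le _ _).trans ?_)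
        rw [hT1, Nat.succ_mul]
        omega
      · have h6 : U \ (M ∪ C) = (U \ M) \ C := by
          ext x
          simp only [Finset.mem_sdiff, Finset.mem_union]
          tauto
        rw [h6]
        have h7 : C ⊆ U \ M := Finset.filter_subset _ _
        have h8 := Finset.card_sdiff_add_card_eq_card h7
        have h9 : (((U \ M) \ C).card : ℝ) + C.card = (U \ M).card := by exact_mod_cast h8
        have h10 : (((U \ M) \ C).card : ℝ) ≤ (1 - (d / 4) ^ t) * (U \ M).card := by
          linarith
        refine h10.trans ?_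
        rw [pow_succ]
        calc (1 - (d / 4) ^ t) * ((U \ M).card : ℝ)
            ≤ (1 - (d / 4) ^ t) * ((1 - (d / 4) ^ t) ^ s * U.card) :=
              mul_le_mul_of_nonneg_left h5 hc0
          _ = _ := by ring

/-- The number of vertices of large degree is at most `k/t + small`. -/
theorem large_card (t k : ℕ) (d : ℝ) (hd : 0 < d) (hd1 : d ≤ 4) (ht : 1 ≤ t)
    (hG : Small G t k) (hk : 0 < k) (s : ℕ) (hbig : ((s * t : ℕ) : ℝ) + t ≤ d * k / 2)
    (hs : (1 - (d / 4) ^ t) ^ s ≤ d / 2) :
    ((Finset.univ.filter (fun u => d * k ≤ (G.degree u : ℝ))).card : ℝ) ≤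
      k / t + s * t + d * k := by
  set U := Finset.univ.filter (fun u => d * k ≤ (G.degree u : ℝ)) with hU
  have hW := supp_card ht hG
  obtain ⟨M, N, h1, h2, h3, h4, h5⟩ := greedy t k d hd hd1 hW hk U (fun u hu => by
    rw [hU, Finset.mem_filter] at hu; exact hu.2) s hbig
  set M' := M \ M.biUnion N with hM'
  have hM's : M' ⊆ M := Finset.sdiff_subset
  have hout : ∀ u ∈ M', ∀ x ∈ N u, x ∉ M' := by
    intro u hu x hx hxM
    rw [hM', Finset.mem_sdiff] at hxM
    exact hxM.2 (Finset.mem_biUnion.2 ⟨u, hM's hu, hx⟩)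
  have hcard := bg_card M' N hout
  have hlt : (bg M' N).edgeSet.ncard < k := by
    apply hG
    · exact bg_le G M' N (fun u hu x hx => (h2 u (hM's hu)).2 x hx)
    · exact bg_free t M' N (fun u hu => (h2 u (hM's hu)).1.le)
        (fun u hu u' hu' => h3 u (hM's hu) u' (hM's hu'))
  rw [hcard, Finset.sum_congr rfl (fun u hu => (h2 u (hM's hu)).1), Finset.sum_const,
    smul_eq_mul] at hlt
  have h6 : M.card ≤ M'.card + s * t := by
    have h7 : M ⊆ M' ∪ M.biUnion N := by
      intro x hx
      by_cases h : x ∈ M.biUnion N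
      · exact Finset.mem_union_right _ h
      · exact Finset.mem_union_left _ (Finset.mem_sdiff.2 ⟨hx, h⟩)
    have := (Finset.card_le_card h7).trans (Finset.card_union_le _ _)
    omega
  have hUs : (U.card : ℝ) ≤ 2 * k := by
    have h8 : U ⊆ supp G := by
      intro u hu
      rw [hU, Finset.mem_filter] at hu
      unfold supp
      rw [Finset.mem_filter]
      refine ⟨Finset.mem_univ _, ?_⟩
      have h9 : 0 < G.degree u := by
        have h10 : (0 : ℝ) < G.degree u := lt_of_lt_of_le (by positivity) hu.2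
        exact_mod_cast h10
      rw [← SimpleGraph.card_neighborFinset_eq_degree, Finset.card_pos] at h9
      obtain ⟨w, hw⟩ := h9
      rw [SimpleGraph.mem_neighborFinset] at hw
      exact ⟨w, hw⟩
    exact_mod_cast (Finset.card_le_card h8).trans hW
  have h11 : ((U \ M).card : ℝ) ≤ d * k := by
    refine h5.trans ?_
    calc (1 - (d / 4) ^ t) ^ s * (U.card : ℝ) ≤ d / 2 * (2 * k) :=
          mul_le_mul hs hUs (by positivity) (by positivity)
      _ = d * k := by ring
  have h12 : (M'.card : ℝ) ≤ k / t := by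
    rw [le_div_iff₀ (by exact_mod_cast ht)]
    exact_mod_cast hlt.le
  have h13 : (U.card : ℝ) = (U \ M).card + M.card := by
    exact_mod_cast (Finset.card_sdiff_add_card_eq_card h1).symm
  have h14 : (M.card : ℝ) ≤ M'.card + s * t := by exact_mod_cast h6
  linarith

/-- Counting edges through the large-degree vertices. -/
theorem edges_le (t k : ℕ) (d : ℝ) (hd : 0 < d) (ht : 1 ≤ t) (hG : Small G t k) :
    (G.edgeSet.ncard : ℝ) ≤
      ((Finset.univ.filter (fun u => d * k ≤ (G.degree u : ℝ))).card : ℝ) ^ 2 / 2 +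
        2 * d * k ^ 2 := by
  set U := Finset.univ.filter (fun u => d * k ≤ (G.degree u : ℝ)) with hU
  have hW := supp_card ht hG
  have h1 : 2 * (G.edgeSet.ncard : ℝ) = ∑ v, (G.degree v : ℝ) := by
    rw [← SimpleGraph.coe_edgeFinset, Set.ncard_coe_finset]
    exact_mod_cast G.sum_degrees_eq_twice_card_edges.symm
  have hdeg : ∀ v, (G.degree v : ℝ) = ((U.filter (fun x => G.Adj v x)).card : ℝ) +
      ((Uᶜ.filter (fun x => G.Adj v x)).card : ℝ) := by
    intro v
    rw [← SimpleGraph.card_neighborFinset_eq_degree, SimpleGraph.neighborFinset_eq_filter]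
    rw [← Nat.cast_add, ← Finset.card_union_of_disjoint]
    · congr 2
      rw [← Finset.filter_union, Finset.union_compl]
    · exact Finset.disjoint_filter_filter disjoint_compl_right
  have hlow : ∑ v ∈ Uᶜ, (G.degree v : ℝ) ≤ 2 * d * k ^ 2 := by
    have h2 : ∑ v ∈ Uᶜ, (G.degree v : ℝ) ≤ ∑ v ∈ supp G, d * k := by
      have h3 : ∑ v ∈ Uᶜ, (G.degree v : ℝ) = ∑ v ∈ Uᶜ ∩ supp G, (G.degree v : ℝ) := by
        symm
        apply Finset.sum_subset Finset.inter_subset_left
        intro v hv hv2
        have h4 : v ∉ supp G := fun h => hv2 (Finset.mem_inter.2 ⟨hv, h⟩)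
        unfold supp at h4
        rw [Finset.mem_filter] at h4
        push Not at h4
        have h5 := h4 (Finset.mem_univ v)
        have h6 : G.degree v = 0 := by
          rw [← SimpleGraph.card_neighborFinset_eq_degree, Finset.card_eq_zero]
          ext x
          simp [h5 x]
        rw [h6]; simp
      rw [h3]
      calc ∑ v ∈ Uᶜ ∩ supp G, (G.degree v : ℝ) ≤ ∑ v ∈ Uᶜ ∩ supp G, d * k := by
            apply Finset.sum_le_sum
            intro v hv
            rw [Finset.mem_inter, Finset.mem_compl, hU, Finset.mem_filter] at hv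
            have := hv.1
            push Not at this
            exact (this (Finset.mem_univ v)).le
        _ ≤ ∑ v ∈ supp G, d * k := by
            apply Finset.sum_le_sum_of_subset_of_nonneg Finset.inter_subset_right
            intro _ _ _
            positivity
    refine h2.trans ?_
    rw [Finset.sum_const, nsmul_eq_mul]
    have : ((supp G).card : ℝ) ≤ 2 * k := by exact_mod_cast hW
    calc ((supp G).card : ℝ) * (d * k) ≤ 2 * k * (d * k) :=
          mul_le_mul_of_nonneg_right this (by positivity)
      _ = _ := by ring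
  have hcross : ∑ v ∈ U, ((Uᶜ.filter (fun x => G.Adj v x)).card : ℝ) ≤
      ∑ v ∈ Uᶜ, (G.degree v : ℝ) := by
    have h2 : ∑ v ∈ U, ((Uᶜ.filter (fun x => G.Adj v x)).card : ℝ) =
        ∑ v ∈ Uᶜ, ((U.filter (fun x => G.Adj v x)).card : ℝ) := by
      simp_rw [Finset.card_filter]
      push_cast
      rw [Finset.sum_comm]
      simp_rw [SimpleGraph.adj_comm]
    rw [h2]
    apply Finset.sum_le_sum
    intro v _
    rw [hdeg v]
    linarith [(Nat.cast_nonneg _ : (0 : ℝ) ≤ ((Uᶜ.filter (fun x => G.Adj v x)).card : ℝ))]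
  have hin : ∑ v ∈ U, ((U.filter (fun x => G.Adj v x)).card : ℝ) ≤ (U.card : ℝ) ^ 2 := by
    have : ∀ v ∈ U, ((U.filter (fun x => G.Adj v x)).card : ℝ) ≤ U.card := by
      intro v _
      exact_mod_cast Finset.card_filter_le _ _
    refine (Finset.sum_le_sum this).trans ?_
    rw [Finset.sum_const, nsmul_eq_mul, sq]
  have hsum : ∑ v, (G.degree v : ℝ) = ∑ v ∈ U, (G.degree v : ℝ) + ∑ v ∈ Uᶜ, (G.degree v : ℝ) :=
    (Finset.sum_add_sum_compl U _).symm
  have hU2 : ∑ v ∈ U, (G.degree v : ℝ) = ∑ v ∈ U, ((U.filter (fun x => G.Adj v x)).card : ℝ) +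
      ∑ v ∈ U, ((Uᶜ.filter (fun x => G.Adj v x)).card : ℝ) := by
    rw [← Finset.sum_add_distrib]
    exact Finset.sum_congr rfl fun v _ => hdeg v
  linarith

end Q116.Inv
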